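import Pool.Agent.Y716.M.Data
import Pool.Agent.Y362.MH.Norm

/-!
# Slopes and end values for all the forms of a class on a box with several scales
(job M7 of helper716)
-/

namespace Pool.Agent.Y77.M7

open Pool.Agent.Y716.Q Pool.Agent.Y716.M

theorem isM_toF {r : ℕ} {n d : Fin r → ℕ} {R : ℝ} {f : MvPolynomial (Var n) ℤ} (hf : IsM d R f)
    {D : ℕ} (hD : ∑ i, d i = D) : IsF D R f := by
  refine ⟨?_, hf.2⟩
  intro s hs
  have h1 := hf.1 s (MvPolynomial.mem_support_iff.mpr hs)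
  have h2 : ∑ a : Var n, s a = D := by
    rw [Fintype.sum_sigma, ← hD]
    exact Finset.sum_congr rfl (fun i _ => h1 i)
  rw [Finsupp.weight_apply, Finsupp.sum_fintype]
  · simpa using h2
  · simp

theorem monsM_sub {r : ℕ} {n d : Fin r → ℕ} {D : ℕ} (hD : ∑ i, d i = D) :
    monsM n d ⊆ mons (Var n) D := by
  intro s hs
  rw [mem_mons, Fintype.sum_sigma, ← hD]
  exact Finset.sum_congr rfl (fun i _ => mem_monsM.mp hs i)

theorem rescale {r : ℕ} {n d : Fin r → ℕ} {R : ℝ} {f : MvPolynomial (Var n) ℤ} (hf : IsM d R f)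
    {Λ : Fin r → ℝ} (hΛ : ∀ i, 0 < Λ i) (I I' : DecidableEq (Var n)) (x : Var n → ℝ) (a₀ : Var n)
    (t : ℝ) : MvPolynomial.aeval (@Function.update _ _ I x a₀ t) f = (∏ i, Λ i ^ d i) *
      MvPolynomial.aeval (@Function.update _ _ I' (fun a => x a / Λ a.1) a₀ (t / Λ a₀.1)) f := by
  obtain rfl : I = I' := Subsingleton.elim _ _
  rw [← Pool.Agent.Y362.MH.aeval_block f hf.1 Λ]
  congr 1
  apply congrArg
  funext a
  by_cases h : a = a₀
  · subst h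
    rw [Function.update_self, Function.update_self]
    have := (hΛ a.1).ne'
    field_simp
  · rw [Function.update_of_ne h, Function.update_of_ne h]
    have := (hΛ a.1).ne'
    field_simp

theorem real_classM {r : ℕ} (n d : Fin r → ℕ) (e : ℕ) (he : ∑ i, d i = e + 2) : ∃ C : ℝ, 1 ≤ C ∧
    ∀ (H γ η θ ρ ρ' : ℝ) (Λ : Fin r → ℝ) (fc : MvPolynomial (Var n) ℤ)
    (ξ : Var n → ℝ) (a₀ : Var n), RDataM d H γ η fc ξ a₀ → 0 < H → 0 < γ → 0 < η → η ≤ 1 → 0 < θ →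
    θ ≤ 1 / 2 → 0 < ρ → ρ ≤ ρ' → ρ' ≤ 1 → (∀ i, 0 < Λ i) → C * (ρ' + η) ≤ θ * γ →
    C * (ρ + η) ≤ γ * ρ' →
    ∃ σ : ℝ, |σ| = 1 ∧ ∀ h : MvPolynomial (Var n) ℤ, IsM d (η * H) h →
      SlopeM σ ((1 - θ) * (|MvPolynomial.aeval ξ (MvPolynomial.pderiv a₀ fc)| *
          ((∏ i, Λ i ^ d i) / Λ a₀.1)))
        ((1 + θ) * (|MvPolynomial.aeval ξ (MvPolynomial.pderiv a₀ fc)| *
          ((∏ i, Λ i ^ d i) / Λ a₀.1)))
        (η * H * ∏ i, Λ i ^ d i) Λ ξ a₀ ρ ρ' (fc + h) := by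
  classical
  obtain ⟨C, hC1, hC⟩ := real_class (Var n) e
  refine ⟨C, hC1, ?_⟩
  intro H γ η θ ρ ρ' Λ fc ξ a₀ hR hH hγ hη hη1 hθ hθ1 hρ hρρ' hρ'1 hΛ hc1 hc2
  have hRD : RData e H γ η fc ξ a₀ := by
    refine ⟨isM_toF hR.hform he, hR.hξ, ?_, ?_, hR.hgξ⟩
    · obtain ⟨j, hj⟩ := hR.hξr a₀.1
      exact ⟨_, hj⟩
    · refine hR.hfξ.trans ?_
      apply mul_le_mul_of_nonneg_right _ (by positivity)
      exact_mod_cast Finset.card_le_card (monsM_sub he)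
  obtain ⟨σ, hσ, hS⟩ := hC H γ η θ ρ ρ' 1 fc ξ a₀ hRD hH hγ hη hη1 hθ hθ1 hρ hρρ' hρ'1
    one_pos hc1 hc2
  refine ⟨σ, hσ, fun h hh => ?_⟩
  have key := hS h (isM_toF hh he)
  have hf : IsM d (2 * H + η * H) (fc + h) := hR.hform.add hh
  obtain ⟨g, hg⟩ : ∃ g : ℝ, |MvPolynomial.aeval ξ (MvPolynomial.pderiv a₀ fc)| = g := ⟨_, rfl⟩
  rw [hg] at key ⊢
  obtain ⟨P, hP⟩ : ∃ P : ℝ, ∏ i, Λ i ^ d i = P := ⟨_, rfl⟩
  have hP0 : 0 < P := by
    rw [← hP]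
    exact Finset.prod_pos (fun i _ => pow_pos (hΛ i) _)
  have hL0 : 0 < Λ a₀.1 := hΛ a₀.1
  have hres := rescale hf hΛ
  rw [hP] at hres ⊢
  intro x hx
  obtain ⟨x', hx'⟩ : ∃ x' : Var n → ℝ, x' = fun a => x a / Λ a.1 := ⟨_, rfl⟩
  have hres' : ∀ t, MvPolynomial.aeval (Function.update x a₀ t) (fc + h) = P *
      MvPolynomial.aeval (@Function.update _ _ (fun a b => Classical.propDecidable (a = b))
        x' a₀ (t / Λ a₀.1)) (fc + h) := by
    intro t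
    rw [hx']
    exact hres _ _ x a₀ t
  have hb : InBox 1 ξ a₀ ρ ρ' x' := by
    intro a
    obtain ⟨h1, h2⟩ := hx a
    rw [hx', one_mul, one_mul]
    constructor
    · rw [le_div_iff₀ (hΛ a.1), mul_comm]; exact h1
    · rw [div_le_iff₀ (hΛ a.1), mul_comm]; exact h2
  obtain ⟨k1, k2, k3⟩ := key x' hb
  simp only [one_mul, one_pow, mul_one] at k1 k2 k3
  have hdiv : ∀ y : ℝ, Λ a₀.1 * y / Λ a₀.1 = y := by
    intro y; field_simp
  refine ⟨?_, ?_, ?_⟩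
  · intro s t hs hst ht
    have h3 := k1 (s / Λ a₀.1) (t / Λ a₀.1)
      (by rw [le_div_iff₀ hL0, mul_comm]; exact hs)
      (div_le_div_of_nonneg_right hst hL0.le)
      (by rw [div_le_iff₀ hL0, mul_comm]; exact ht)
    rw [hres' s, hres' t]
    obtain ⟨A, hA⟩ : ∃ A : ℝ,
      MvPolynomial.aeval (@Function.update _ _ (fun a b => Classical.propDecidable (a = b))
        x' a₀ (t / Λ a₀.1)) (fc + h) = A := ⟨_, rfl⟩
    obtain ⟨B, hB⟩ : ∃ B : ℝ,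
      MvPolynomial.aeval (@Function.update _ _ (fun a b => Classical.propDecidable (a = b))
        x' a₀ (s / Λ a₀.1)) (fc + h) = B := ⟨_, rfl⟩
    rw [hA, hB] at h3 ⊢
    have e1 : σ * (P * A) - σ * (P * B) = P * (σ * A - σ * B) := by ring
    have e2 : t / Λ a₀.1 - s / Λ a₀.1 = (t - s) / Λ a₀.1 := by ring
    rw [e1]
    rw [e2] at h3
    constructor
    · have h4 := mul_le_mul_of_nonneg_left h3.1 hP0.le
      refine le_trans (le_of_eq ?_) h4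
      ring
    · have h4 := mul_le_mul_of_nonneg_left h3.2 hP0.le
      refine h4.trans (le_of_eq ?_)
      ring
  · rw [hres', hdiv]
    have h4 := mul_le_mul_of_nonneg_left k2 hP0.le
    refine le_trans (le_of_eq ?_) (h4.trans (le_of_eq ?_))
    · ring
    · ring
  · rw [hres', hdiv]
    have h4 := mul_le_mul_of_nonneg_left k3 hP0.le
    refine le_trans (le_of_eq ?_) (h4.trans (le_of_eq ?_))
    · ring
    · ring

end Pool.Agent.Y77.M7
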